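import Mathlib
import Pool.Agent.H54.Jac

namespace Pool.Agent.Results.MP_ebce10_nt.Super

open Finset Pool.Agent.H54.Jac

/-- `a(n) = ∑_{j=0}^{n} C(n+j,j) C(n,j) C(n-j,j)` -/
def a (n : ℕ) : ℕ := ∑ j ∈ range (n + 1), (n + j).choose j * n.choose j * (n - j).choose j

lemma cr (n k : ℕ) : (n.choose (k + 1) : ℚ) * (k + 1) = n.choose k * (n - k) := by
  rcases le_or_gt k n with h | h
  · have := congrArg (Nat.cast (R := ℚ)) (Nat.choose_succ_right_eq n k)
    push_cast [h] at this; exact this
  · simp [Nat.choose_eq_zero_of_lt h, Nat.choose_eq_zero_of_lt (Nat.lt_succ_of_lt h)]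

lemma cs (n k : ℕ) : (n.choose k : ℚ) * (n + 1) = (n + 1).choose k * (n + 1 - k) := by
  have h1 := cr (n + 1) k
  have h2 := congrArg (Nat.cast (R := ℚ)) (Nat.add_one_mul_choose_eq n k)
  push_cast at h1 h2; linarith

lemma sur (x M : ℕ) (hM : x < M) (b : ℕ) :
    ∑ j ∈ range M, ((x + b + j).choose j * x.choose j * b.choose j : ℚ) = ((x + b).choose x : ℚ) ^ 2 := by
  induction b with
  | zero =>
    rw [sum_eq_single 0] <;> simp
    · intro j _ hj; right; exact Nat.choose_eq_zero_of_lt (by omega)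
    · omega
  | succ b ih =>
    let u : ℕ → ℚ := fun j => (j : ℚ) ^ 3 * (x.choose j * (b + 1).choose j * (x + b + j).choose j)
    have key : ∀ j : ℕ, ((x : ℚ) + b + 1) * (b + 1) * ((b + 1) ^ 2 * ((x + (b + 1) + j).choose j * x.choose j * (b + 1).choose j) -
        (x + b + 1) ^ 2 * ((x + b + j).choose j * x.choose j * b.choose j)) = -(x + 2 * b + 2) * (u (j + 1) - u j) := by
      intro j
      have h1 := cr x j
      have h2 := cr (b + 1) j
      have h3 := congrArg (Nat.cast (R := ℚ)) (Nat.add_one_mul_choose_eq (x + b + j) j)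
      have h4 := cs (x + b + j) j
      have h5 := cs b j
      simp only [u]
      rw [show x + (b + 1) + j = x + b + j + 1 by ring, show x + b + (j + 1) = x + b + j + 1 by ring]
      push_cast at *
      have e : ((j : ℚ) + 1) ^ 3 * (x.choose (j + 1) * (b + 1).choose (j + 1) * (x + b + j + 1).choose (j + 1)) =
          (x.choose j * (x - j)) * ((b + 1).choose j * (b + 1 - j)) * ((x + b + j + 1) * (x + b + j).choose j) := by
        rw [← h1, ← h2, h3]; ring
      rw [e]
      linear_combination (-(b + 1) ^ 3 * x.choose j * (b + 1).choose j : ℚ) * h4 -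
        ((x + b + 1) ^ 3 * (x + b + j).choose j * x.choose j : ℚ) * h5
    have s := sum_congr (rfl : range M = range M) (fun j _ => key j)
    rw [← mul_sum, ← mul_sum, sum_range_sub, sum_sub_distrib, ← mul_sum, ← mul_sum, ih] at s
    simp only [u, Nat.choose_eq_zero_of_lt hM] at s
    have h6 := cs (x + b) x
    push_cast at h6
    have n0 : ((x : ℚ) + b + 1) * (b + 1) * (b + 1) ^ 2 ≠ 0 := by positivity
    apply mul_left_cancel₀ n0
    rw [← add_assoc]
    push_cast at s
    linear_combination s + ((x + b + 1) * (b + 1) * ((x + b).choose x * (x + b + 1) + (x + b + 1).choose x * (b + 1)) : ℚ) * h6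

def c (m : ℤ) : ℤ := if m % 6 = 0 then 2 else if m % 6 = 3 then -2 else if m % 6 = 1 ∨ m % 6 = 5 then 1 else -1

lemma c_rec (m : ℤ) : c (m + 1) + c (m - 1) = c m := by
  simp only [c]; split_ifs <;> omega

lemma c_sum (N : ℕ) : ∀ t : ℤ, ∑ i ∈ range (N + 1), (N.choose i : ℤ) * c (2 * i - N + t) = c t := by
  induction N with
  | zero => simp
  | succ N ih =>
    intro t
    have := Finset.sum_choose_succ_mul (R := ℤ) (fun i _ => c (2 * i - (N + 1 : ℕ) + t)) N
    rw [this, ← c_rec t, ← ih (t + 1), ← ih (t - 1), add_comm]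
    congr 1 <;> refine sum_congr rfl (fun i _ => ?_) <;> congr 2 <;> push_cast <;> ring

lemma col (n j : ℕ) : ∑ k ∈ range (n + 1), (n.choose k * k.choose j * (n - k).choose j : ℤ) * c (2 * k - n) =
    2 * (n.choose j * (n - j).choose j) := by
  rcases lt_or_ge n (2 * j) with h | h
  · rw [sum_eq_zero]
    · rcases Nat.eq_zero_or_pos j with rfl | h0
      · omega
      · rw [Nat.choose_eq_zero_of_lt (by omega : n - j < j)]; simp
    · intro k hk
      rcases lt_or_ge k j with h1 | h1
      · simp [Nat.choose_eq_zero_of_lt h1]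
      · simp [Nat.choose_eq_zero_of_lt (by simp at hk; omega : n - k < j)]
  · obtain ⟨N, rfl⟩ := Nat.exists_eq_add_of_le h
    rw [show 2 * j + N + 1 = j + (N + 1) + j by ring, sum_range_add, sum_range_add, sum_eq_zero, sum_eq_zero (s := range j)]
    · have z : ∀ x : ℤ, 2 * x = (∑ i ∈ range (N + 1), (N.choose i : ℤ) * c (2 * i - N + 0)) * x := fun x => by
        rw [c_sum]; rfl
      rw [zero_add, add_zero, z (_ * _), sum_mul]
      refine sum_congr rfl (fun i hi => ?_)
      obtain ⟨l, rfl⟩ := Nat.exists_eq_add_of_le (by simp at hi; omega : i ≤ N)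
      have e : (((2 * j + (i + l)).choose (j + i) * (j + i).choose j * (2 * j + (i + l) - (j + i)).choose j : ℕ) : ℚ) =
          ((i + l).choose i * ((2 * j + (i + l)).choose j * (2 * j + (i + l) - j).choose j) : ℕ) := by
        push_cast
        rw [show 2 * j + (i + l) - (j + i) = j + l by omega, show 2 * j + (i + l) - j = j + (i + l) by omega]
        repeat rw [Nat.cast_choose ℚ (by omega)]
        rw [show 2 * j + (i + l) - (j + i) = j + l by omega, show 2 * j + (i + l) - j = j + (i + l) by omega]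
        simp only [Nat.add_sub_cancel_left]
        field_simp
      have e2 := congrArg (Nat.cast (R := ℤ)) (Nat.cast_injective e)
      push_cast at e2
      rw [e2, show (2 * ((j + i : ℕ) : ℤ) - ((2 * j + (i + l) : ℕ) : ℤ)) = 2 * i - ((i + l : ℕ) : ℤ) + 0 by push_cast; ring]
      ring
    · intro x hx; simp [Nat.choose_eq_zero_of_lt (by simp at hx; omega : 2 * j + N - (j + (N + 1) + x) < j)]
    · intro x hx; simp [Nat.choose_eq_zero_of_lt (by simp at hx; omega : x < j)]

lemma mac (n : ℕ) : 2 * (a n : ℤ) = ∑ k ∈ range (n + 1), (n.choose k : ℤ) ^ 3 * c (2 * k - n) := by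
  have e : ∀ k ∈ range (n + 1), (n.choose k : ℤ) ^ 3 * c (2 * k - n) =
      ∑ j ∈ range (n + 1), ((n + j).choose j : ℤ) * ((n.choose k * k.choose j * (n - k).choose j : ℤ) * c (2 * k - n)) := by
    intro k hk
    have := sur k (n + 1) (by simpa using hk) (n - k)
    rw [show k + (n - k) = n by simp at hk; omega] at this
    have e2 : ∑ j ∈ range (n + 1), ((n + j).choose j * k.choose j * (n - k).choose j : ℤ) = (n.choose k : ℤ) ^ 2 := by
      exact_mod_cast this
    rw [pow_succ, ← e2, sum_mul, sum_mul]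
    exact sum_congr rfl (fun j _ => by ring)
  rw [sum_congr rfl e, sum_comm, a]
  push_cast
  rw [mul_sum]
  refine sum_congr rfl (fun j _ => ?_)
  rw [← mul_sum, col]; ring

lemma c_mul {p : ℕ} (hp : p.Prime) (h3 : 3 < p) (m : ℤ) : c (p * m) = c m := by
  have h1 : ¬2 ∣ p := fun h => by have := (Nat.prime_dvd_prime_iff_eq Nat.prime_two hp).1 h; omega
  have h2 : ¬3 ∣ p := fun h => by have := (Nat.prime_dvd_prime_iff_eq Nat.prime_three hp).1 h; omega
  have : (p * m) % 6 = m % 6 ∨ (p * m) % 6 = (-m) % 6 := by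
    rcases (by omega : p % 6 = 1 ∨ p % 6 = 5) with h | h
    · left; rw [show (p : ℤ) * m = m + 6 * ((p / 6 : ℕ) * m) by rw [show (p : ℤ) = 6 * (p / 6 : ℕ) + 1 by omega]; simp; ring]; simp
    · right
      obtain ⟨r, hr⟩ : ∃ r : ℤ, (p : ℤ) = 6 * r - 1 := ⟨(p / 6 : ℕ) + 1, by omega⟩
      rw [show (p : ℤ) * m = -m + 6 * (r * m) by rw [hr]; ring]; simp
  simp only [c]; split_ifs <;> omega

theorem result : ∀ p n : ℕ, p.Prime → 3 < p → 0 < n →
    (p : ℤ) ^ (3 + 3 * padicValNat p n) ∣ (a (p * n) : ℤ) - a n := by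
  intro p n hp h3 _
  have hn : p ^ padicValNat p n ∣ n := pow_padicValNat_dvd
  generalize padicValNat p n = e at hn
  have c2 : IsCoprime ((p : ℤ) ^ (3 + 3 * e)) 2 :=
    (Nat.isCoprime_iff_coprime.2 ((Nat.coprime_primes hp Nat.prime_two).2 (by omega))).pow_left
  refine c2.dvd_of_dvd_mul_left ?_
  rw [mul_sub, mac, mac, ← sum_filter_add_sum_filter_not (range (p * n + 1)) (fun k => p ∣ k)]
  have e1 : ∑ k ∈ (range (p * n + 1)).filter (fun k => p ∣ k), ((p * n).choose k : ℤ) ^ 3 * c (2 * k - (p * n : ℕ)) =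
      ∑ k ∈ range (n + 1), ((p * n).choose (p * k) : ℤ) ^ 3 * c (2 * k - n) := by
    symm
    refine sum_bij (fun k _ => p * k) (fun k hk => ?_) (fun x _ y _ h => Nat.eq_of_mul_eq_mul_left hp.pos h) (fun k hk => ?_)
      (fun k _ => ?_)
    · simp only [mem_filter, mem_range] at *
      exact ⟨Nat.lt_succ_of_le (Nat.mul_le_mul_left _ (by omega)), Dvd.intro _ rfl⟩
    · simp only [mem_filter, mem_range] at hk
      obtain ⟨h1, t, rfl⟩ := hk
      exact ⟨t, mem_range.2 (Nat.lt_succ_of_le (Nat.le_of_mul_le_mul_left (by omega) hp.pos)), rfl⟩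
    · rw [← c_mul hp h3]; congr 2; push_cast; ring
  rw [e1, add_sub_right_comm, ← sum_sub_distrib]
  refine dvd_add (dvd_sum (fun k hk => ?_)) (dvd_sum (fun k hk => ?_))
  · rw [← sub_mul]; exact (cube hp h3 e n k hn (by simp at hk; omega)).mul_right _
  · have := ch_dvd hp (e + 1) 0 (p * n) k (by simpa using (mem_filter.1 hk).2) (by
      rw [add_zero, pow_succ']; exact Nat.mul_dvd_mul_left _ hn)
    rw [pow_zero, one_mul] at this
    rw [show 3 + 3 * e = (e + 1) * 3 by ring, pow_mul]
    exact (pow_dvd_pow_of_dvd this 3).mul_right _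

end Pool.Agent.Results.MP_ebce10_nt.Super
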